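import Pool.Agent.R700.TPg

/-!
MP_7792ce_al, Q1 (positive answer).  The transversal probability `tp` and the commuting probability
of a finite group.

Definitions: `IsLeftTransversal`, `IsRightTransversal`, `DT`, `P`, `tp` are in
`Pool/Agent/R864/TPGroup.lean`; `Gn n = ⟨a, b | a^3, b^(2^n), b⁻¹ a b a⟩` is in
`Pool/Agent/R700/TPDefs.lean`; `commProb` is the commuting probability of Mathlib and
`QuaternionGroup 4` is the generalized quaternion group of order 16 of Mathlib.
-/

namespace Pool.Agent.Results.MP_7792ce_al.TransversalVsCommuting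

open Pool.Agent.R864.TP Pool.Agent.R700.TP

/-- A group is Dedekind if all of its subgroups are normal. -/
def IsDedekind (G : Type) [Group G] : Prop := ∀ H : Subgroup G, H.Normal

/-- A group is abelian. -/
def IsAbelian (G : Type) [Group G] : Prop := ∀ a b : G, a * b = b * a

theorem result :
    (∀ (G : Type) [Group G] [Finite G],
      -- (i)
      (¬ (IsDedekind G ∧ ¬ IsAbelian G) → IsEmpty (G ≃* QuaternionGroup 4) →
        tp G ≤ (commProb G : ℝ)) ∧
      (IsDedekind G → ¬ IsAbelian G → (commProb G : ℝ) / tp G = 5 / 8) ∧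
      (Nonempty (G ≃* QuaternionGroup 4) → (commProb G : ℝ) / tp G = 7 / 8) ∧
      -- (ii)
      (tp G = (commProb G : ℝ) → IsAbelian G ∨ ∃ n, 1 ≤ n ∧ Nonempty (G ≃* Gn n)) ∧
      (∀ n, 1 ≤ n → Nonempty (G ≃* Gn n) → tp G = 1 / 2 ∧ (commProb G : ℝ) = 1 / 2)) ∧
    -- the groups `G_n`
    (∀ n, 1 ≤ n → Nat.card (Gn n) = 3 * 2 ^ n ∧ tp (Gn n) = 1 / 2 ∧
      (commProb (Gn n) : ℝ) = 1 / 2) := by
  have hab : ∀ (G : Type) [Group G] [Finite G], IsAbelian G → (commProb G : ℝ) = 1 := by
    intro G _ _ h
    have : IsMulCommutative G := ⟨⟨h⟩⟩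
    have h1 := commProb_eq_one_iff.mpr this
    rw [h1]; norm_num
  refine ⟨?_, ?_⟩
  · intro G _ _
    have hG : ∀ n, 1 ≤ n → Nonempty (G ≃* Gn n) → tp G = 1 / 2 ∧ (commProb G : ℝ) = 1 / 2 := by
      rintro n hn ⟨e⟩
      refine ⟨tp_Gn n hn e, ?_⟩
      rw [cp_Gn n hn e]; norm_num
    refine ⟨?_, ?_, ?_, ?_, hG⟩
    · intro h1 h2
      by_cases hD : IsDedekind G
      · have hA : IsAbelian G := by
          by_contra hcon
          exact h1 ⟨hD, hcon⟩
        rw [hab G hA, tp_dedekind hD]
      · rcases main_ineq hD with h3 | ⟨n, hn, h3⟩ | h3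
        · exact h3.le
        · obtain ⟨h4, h5⟩ := hG n hn h3
          rw [h4, h5]
        · exact absurd h3 (not_nonempty_iff.mpr h2)
    · intro hD hA
      have hna : ∃ a b : G, a * b ≠ b * a := by
        by_contra hcon
        push Not at hcon
        exact hA hcon
      rw [dedekind_commProb hD hna, tp_dedekind hD]
      norm_num
    · rintro ⟨e⟩
      rw [cp_Q16 e, tp_Q16 e]
      norm_num
    · intro heq
      by_cases hD : IsDedekind G
      · left
        by_contra hA
        have hna : ∃ a b : G, a * b ≠ b * a := by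
          by_contra hcon
          push Not at hcon
          exact hA hcon
        rw [dedekind_commProb hD hna, tp_dedekind hD] at heq
        norm_num at heq
      · right
        rcases main_ineq hD with h3 | h3 | ⟨⟨e⟩⟩
        · exact absurd heq h3.ne
        · exact h3
        · exfalso
          rw [cp_Q16 e, tp_Q16 e] at heq
          norm_num at heq
  · intro n hn
    have hcard := Gn_card n hn
    have : Finite (Gn n) := by
      apply Nat.finite_of_card_ne_zero
      rw [hcard]; positivity
    refine ⟨hcard, tp_Gn n hn (MulEquiv.refl _), ?_⟩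
    rw [Gn_commProb n hn]; norm_num

end Pool.Agent.Results.MP_7792ce_al.TransversalVsCommuting
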